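import Mathlib
import Pool.Agent.Helper93.ML.Defs

/-!
# Module M7: existence of codes
-/

namespace Pool.Agent.Helper61.MLCodes

open Pool.Agent.Helper93.ML

/-- spacing attached to a constraint -/
def sp (c : ℕ × ℕ) : ℕ := c.2 - 3 * c.1

/-- total density of the constraints -/
def sig (cons : List (ℕ × ℕ)) : ℚ := (cons.map (fun c => (c.1 : ℚ) / (sp c : ℚ))).sum

/-- total length -/
def tot (cons : List (ℕ × ℕ)) : ℕ := (cons.map Prod.fst).sum

/-- good constraint lists -/
def GoodC (cons : List (ℕ × ℕ)) : Prop := (∀ c ∈ cons, 3 * c.1 < c.2) ∧ sig cons < 1 / 2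

/-- reserved positions -/
def resv (cons : List (ℕ × ℕ)) (y : ℕ) : Prop := ∃ c ∈ cons, y % sp c < c.1

instance (cons : List (ℕ × ℕ)) : DecidablePred (resv cons) := fun y => by
  unfold resv; infer_instance

lemma card_one (s p u L : ℕ) (hs : 0 < s) :
    ((Finset.Ico u (u + L)).filter (fun y => y % s < p)).card ≤ p * (L / s + 2) := by
  have h1 : ((Finset.Ico u (u + L)).filter (fun y => y % s < p)).card ≤
      (Finset.range p ×ˢ Finset.Icc (u / s) ((u + L) / s)).card := by
    apply Finset.card_le_card_of_injOn (fun y => (y % s, y / s))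
    · intro y hy
      simp only [Finset.coe_filter, Finset.mem_Ico, Set.mem_ofPred_eq] at hy
      simp only [Finset.coe_product, Set.mem_prod, Finset.mem_coe, Finset.mem_range,
        Finset.mem_Icc]
      exact ⟨hy.2, Nat.div_le_div_right hy.1.1, Nat.div_le_div_right hy.1.2.le⟩
    · intro y _ y' _ h
      simp only [Prod.mk.injEq] at h
      rw [← Nat.mod_add_div y s, ← Nat.mod_add_div y' s, h.1, h.2]
  refine h1.trans ?_
  rw [Finset.card_product, Finset.card_range, Nat.card_Icc]
  apply Nat.mul_le_mul_left
  have h2 : (u + L) / s ≤ u / s + L / s + 1 := by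
    rw [Nat.add_div hs]
    split_ifs
    · exact le_rfl
    · exact Nat.le_succ _
  generalize (u + L) / s = A at h2 ⊢
  generalize u / s = B at h2 ⊢
  generalize L / s = D at h2 ⊢
  omega

lemma card_resv (cons : List (ℕ × ℕ)) (hc : ∀ c ∈ cons, 3 * c.1 < c.2) (u L : ℕ) :
    (((Finset.Ico u (u + L)).filter (resv cons)).card : ℚ) ≤ sig cons * L + 2 * tot cons := by
  induction cons with
  | nil =>
    have : (Finset.Ico u (u + L)).filter (resv []) = ∅ := by
      apply Finset.filter_false_of_mem
      intro y _ h
      simp [resv] at h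
    rw [this]
    simp [sig, tot]
  | cons c cs ih =>
    have ih' := ih (fun c' hc' => hc c' (List.mem_cons_of_mem _ hc'))
    have hs : 0 < sp c := by
      have := hc c (List.mem_cons_self)
      unfold sp; omega
    have h1 : (Finset.Ico u (u + L)).filter (resv (c :: cs)) ⊆
        (Finset.Ico u (u + L)).filter (fun y => y % sp c < c.1) ∪
          (Finset.Ico u (u + L)).filter (resv cs) := by
      intro y hy
      simp only [Finset.mem_filter, Finset.mem_union] at hy ⊢
      obtain ⟨hy1, c', hc', hy2⟩ := hy
      rcases List.mem_cons.1 hc' with rfl | h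
      · exact Or.inl ⟨hy1, hy2⟩
      · exact Or.inr ⟨hy1, c', h, hy2⟩
    have h2 := (Finset.card_le_card h1).trans (Finset.card_union_le _ _)
    have h3 := card_one (sp c) c.1 u L hs
    have h4 : (((Finset.Ico u (u + L)).filter (resv (c :: cs))).card : ℚ) ≤
        (c.1 * (L / sp c + 2) : ℕ) + ((Finset.Ico u (u + L)).filter (resv cs)).card := by
      exact_mod_cast h2.trans (Nat.add_le_add_right h3 _)
    have h5 : ((c.1 * (L / sp c + 2) : ℕ) : ℚ) ≤ (c.1 : ℚ) / (sp c) * L + 2 * c.1 := by
      push_cast
      have h6 : ((L / sp c : ℕ) : ℚ) ≤ (L : ℚ) / (sp c : ℚ) := Nat.cast_div_le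
      have h7 : (c.1 : ℚ) * (((L / sp c : ℕ) : ℚ) + 2) ≤ (c.1 : ℚ) * ((L : ℚ) / (sp c : ℚ) + 2) := by
        apply mul_le_mul_of_nonneg_left _ (by positivity)
        linarith
      refine h7.trans (le_of_eq ?_)
      ring
    have h8 : sig (c :: cs) = (c.1 : ℚ) / (sp c) + sig cs := by simp [sig]
    have h9 : (tot (c :: cs) : ℚ) = c.1 + tot cs := by simp [tot]
    rw [h8, h9]
    linarith [h4, h5, ih']

/-! ## parameters -/

/-- length of the head -/
def hd (cons : List (ℕ × ℕ)) : ℕ := 4 * tot cons + 1

/-- block length -/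
def bl (cons : List (ℕ × ℕ)) (N l : ℕ) : ℕ :=
  hd cons + 2 + 2 * (8 * l + N + 2 * tot cons)

/-- data positions -/
def dat (cons : List (ℕ × ℕ)) (y : ℕ) : Prop := hd cons < y ∧ ¬ resv cons y

instance (cons : List (ℕ × ℕ)) : DecidablePred (dat cons) := fun y => by
  unfold dat; infer_instance

/-- injective numbering of the letters -/
def enc (x : Ltr) : ℕ := 2 * (x.1 : ℕ) + (if x.2 then 1 else 0)

lemma enc_lt (x : Ltr) : enc x < 8 := by
  obtain ⟨i, b⟩ := x
  revert i b
  decide

lemma enc_inj (x y : Ltr) (h : enc x = enc y) : x = y := by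
  revert x y
  decide

/-- the bits -/
def bit (l : ℕ) (w : List Ltr) (k j : ℕ) : Bool :=
  if j < 8 * l then decide (enc (w.getD (j / 8) lc) = j % 8) else decide (j = 8 * l + k)

lemma bit_inj {l N : ℕ} {w w' : List Ltr} (hw : w.length = l) (hw' : w'.length = l) {k k' : ℕ}
    (hk : k < N) (h : ∀ j < 8 * l + N, bit l w k j = bit l w' k' j) : w = w' ∧ k = k' := by
  constructor
  · apply List.ext_getElem (by rw [hw, hw'])
    intro i h1 h2
    have h3 : 8 * i + enc w[i] < 8 * l := by
      have := enc_lt w[i]
      omega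
    have h4 := h (8 * i + enc w[i]) (by omega)
    have h5 : (8 * i + enc w[i]) / 8 = i := by
      have := enc_lt w[i]
      omega
    have h6 : (8 * i + enc w[i]) % 8 = enc w[i] := by
      have := enc_lt w[i]
      omega
    unfold bit at h4
    rw [if_pos h3, if_pos h3, h5, h6] at h4
    rw [List.getD_eq_getElem _ _ h1, List.getD_eq_getElem _ _ h2] at h4
    simp only [decide_true] at h4
    have h7 := of_decide_eq_true h4.symm
    exact (enc_inj _ _ h7).symm
  · have h4 := h (8 * l + k) (by omega)
    unfold bit at h4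
    rw [if_neg (by omega), if_neg (by omega)] at h4
    simp only [decide_true] at h4
    have h7 := of_decide_eq_true h4.symm
    omega

/-- the letter at position `x` -/
def fl (cons : List (ℕ × ℕ)) (N l : ℕ) (w : List Ltr) (x : ℕ) : Ltr :=
  if x % bl cons N l = hd cons ∨ x % bl cons N l + 1 = bl cons N l then (0, true)
  else if dat cons (x % bl cons N l) then
    (if bit l w (x / bl cons N l) (Nat.count (dat cons) (x % bl cons N l)) then (1, true)
      else (0, true))
  else lc

lemma fl_eq_lc (cons : List (ℕ × ℕ)) (N l : ℕ) (w : List Ltr) (x : ℕ) :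
    fl cons N l w x = lc ↔ x % bl cons N l ≠ hd cons ∧ x % bl cons N l + 1 ≠ bl cons N l ∧
      (x % bl cons N l ≤ hd cons ∨ resv cons (x % bl cons N l)) := by
  unfold fl
  by_cases h1 : x % bl cons N l = hd cons ∨ x % bl cons N l + 1 = bl cons N l
  · rw [if_pos h1]
    constructor
    · intro h; exact absurd h (by decide)
    · rintro ⟨h2, h3, -⟩
      rcases h1 with h | h
      · exact absurd h h2
      · exact absurd h h3
  · rw [if_neg h1]
    push Not at h1
    by_cases h2 : dat cons (x % bl cons N l)
    · rw [if_pos h2]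
      constructor
      · intro h
        split_ifs at h
        · exact absurd h (by decide)
        · exact absurd h (by decide)
      · rintro ⟨-, -, h3⟩
        exfalso
        unfold dat at h2
        rcases h3 with h | h
        · omega
        · exact h2.2 h
    · rw [if_neg h2]
      refine ⟨fun _ => ⟨h1.1, h1.2, ?_⟩, fun _ => rfl⟩
      unfold dat at h2
      push Not at h2
      by_cases h3 : x % bl cons N l ≤ hd cons
      · exact Or.inl h3
      · exact Or.inr (h2 (by omega))

lemma hd_lt_bl (cons : List (ℕ × ℕ)) (N l : ℕ) : hd cons + 2 ≤ bl cons N l := by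
  unfold bl; omega

lemma mod_add_small {x b i : ℕ} (h : x % b + i < b) : (x + i) % b = x % b + i := by
  rw [Nat.add_mod]
  have : i % b = i := Nat.mod_eq_of_lt (by omega)
  rw [this]
  exact Nat.mod_eq_of_lt h

/-- long runs of `c` are heads -/
lemma run (cons : List (ℕ × ℕ)) (hg : GoodC cons) (N l : ℕ) (w : List Ltr) (x : ℕ)
    (h : ∀ i < hd cons, fl cons N l w (x + i) = lc) : x % bl cons N l = 0 := by
  have hb := hd_lt_bl cons N l
  have hlt : x % bl cons N l < bl cons N l := Nat.mod_lt _ (by omega)
  by_contra hne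
  set b := bl cons N l with hbdef
  set y := x % b with hy
  by_cases h1 : y ≤ hd cons
  · have h2 := (fl_eq_lc cons N l w _).1 (h (hd cons - y) (by omega))
    rw [← hbdef] at h2
    have h3 : (x + (hd cons - y)) % b = y + (hd cons - y) := mod_add_small (by omega)
    rw [h3] at h2
    exact h2.1 (by omega)
  · by_cases h4 : y + hd cons ≥ b
    · have h2 := (fl_eq_lc cons N l w _).1 (h (b - 1 - y) (by omega))
      rw [← hbdef] at h2
      have h3 : (x + (b - 1 - y)) % b = y + (b - 1 - y) := mod_add_small (by omega)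
      rw [h3] at h2
      exact h2.2.1 (by omega)
    · have h5 : ∀ i < hd cons, resv cons (y + i) := by
        intro i hi
        have h2 := (fl_eq_lc cons N l w _).1 (h i hi)
        rw [← hbdef] at h2
        have h3 : (x + i) % b = y + i := mod_add_small (by omega)
        rw [h3] at h2
        rcases h2.2.2 with h6 | h6
        · omega
        · exact h6
      have h6 : (Finset.Ico y (y + hd cons)).filter (resv cons) = Finset.Ico y (y + hd cons) := by
        apply Finset.filter_true_of_mem
        intro z hz
        rw [Finset.mem_Ico] at hz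
        have := h5 (z - y) (by omega)
        rwa [Nat.add_sub_cancel' hz.1] at this
      have h7 := card_resv cons hg.1 y (hd cons)
      rw [h6, Nat.card_Ico, Nat.add_sub_cancel_left] at h7
      have h8 : ((hd cons : ℕ) : ℚ) = 4 * tot cons + 1 := by
        unfold hd; push_cast; ring
      have h9 := hg.2
      have h10 : (0 : ℚ) < hd cons := by rw [h8]; positivity
      nlinarith [mul_pos (sub_pos.2 h9) h10]

/-- enough data positions -/
lemma count_dat (cons : List (ℕ × ℕ)) (hg : GoodC cons) (N l : ℕ) :
    8 * l + N ≤ Nat.count (dat cons) (bl cons N l - 1) := by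
  set B := 2 * (8 * l + N + 2 * tot cons) with hB
  have hb : bl cons N l - 1 = hd cons + 1 + B := by unfold bl; omega
  rw [hb, Nat.count_eq_card_filter_range]
  have h1 : (Finset.Ico (hd cons + 1) (hd cons + 1 + B)).filter (fun y => ¬ resv cons y) ⊆
      (Finset.range (hd cons + 1 + B)).filter (dat cons) := by
    intro y hy
    simp only [Finset.mem_filter, Finset.mem_Ico, Finset.mem_range, dat] at hy ⊢
    exact ⟨hy.1.2, by omega, hy.2⟩
  have h2 := Finset.card_le_card h1
  refine le_trans ?_ h2
  have h3 := Finset.card_filter_add_card_filter_not (s := Finset.Ico (hd cons + 1) (hd cons + 1 + B))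
    (resv cons)
  rw [Nat.card_Ico, Nat.add_sub_cancel_left] at h3
  have h4 := card_resv cons hg.1 (hd cons + 1) B
  have h5 := hg.2
  have h6 : (B : ℚ) = 2 * (8 * l + N + 2 * tot cons) := by rw [hB]; push_cast; ring
  have h7 : (0 : ℚ) ≤ B := by positivity
  have h8 : ((((Finset.Ico (hd cons + 1) (hd cons + 1 + B)).filter (resv cons)).card : ℕ) : ℚ)
    + (((Finset.Ico (hd cons + 1) (hd cons + 1 + B)).filter (fun y => ¬ resv cons y)).card : ℕ)
      = B := by exact_mod_cast h3
  have h9 : ((8 * l + N : ℕ) : ℚ) ≤
      (((Finset.Ico (hd cons + 1) (hd cons + 1 + B)).filter (fun y => ¬ resv cons y)).card : ℕ) := by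
    push_cast
    nlinarith [mul_nonneg (sub_nonneg.2 h5.le) h7]
  exact_mod_cast h9

/-- every window of length `m` contains `p` consecutive letters `c` -/
lemma sepl (cons : List (ℕ × ℕ)) (hg : GoodC cons) (N l : ℕ) (w : List Ltr) (c : ℕ × ℕ)
    (hc : c ∈ cons) (x : ℕ) :
    ∃ u, x ≤ u ∧ u + c.1 ≤ x + c.2 ∧ ∀ i < c.1, fl cons N l w (u + i) = lc := by
  have hb := hd_lt_bl cons N l
  have hlt : x % bl cons N l < bl cons N l := Nat.mod_lt _ (by omega)
  have hp : c.1 ≤ tot cons := by
    unfold tot
    exact List.le_sum_of_mem (List.mem_map_of_mem hc)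
  have hph : c.1 ≤ hd cons := by unfold hd; omega
  have hm := hg.1 c hc
  have hs : c.2 = sp c + 3 * c.1 := by unfold sp; omega
  have hs1 : 0 < sp c := by unfold sp; omega
  set b := bl cons N l with hbdef
  set y := x % b with hy
  have hxd : x = b * (x / b) + y := by rw [hy]; exact (Nat.div_add_mod x b).symm
  have loc : ∀ z, z < b → (b * (x / b) + z) % b = z := by
    intro z hz
    rw [Nat.mul_add_mod]
    exact Nat.mod_eq_of_lt hz
  by_cases h1 : y + c.1 ≤ hd cons
  · refine ⟨x, le_rfl, by omega, ?_⟩
    intro i hi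
    rw [fl_eq_lc, ← hbdef]
    have h3 : (x + i) % b = y + i := mod_add_small (by omega)
    rw [h3]
    exact ⟨by omega, by omega, Or.inl (by omega)⟩
  · -- the least multiple of `sp c` above `max y (hd + 1)`
    set y₂ := max y (hd cons + 1) with hy₂
    have hy₂' : y₂ ≤ y + c.1 := by omega
    have hy₃ : y ≤ y₂ := le_max_left _ _
    have hy₄ : hd cons + 1 ≤ y₂ := le_max_right _ _
    obtain ⟨z, hz1, hz2, hz3⟩ : ∃ z, y₂ ≤ z ∧ z < y₂ + sp c ∧ z % sp c = 0 := by
      refine ⟨sp c * ((y₂ + sp c - 1) / sp c), ?_, ?_, Nat.mul_mod_right _ _⟩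
      · have h := Nat.div_add_mod (y₂ + sp c - 1) (sp c)
        have h' := Nat.mod_lt (y₂ + sp c - 1) hs1
        omega
      · have h := Nat.div_add_mod (y₂ + sp c - 1) (sp c)
        omega
    by_cases h4 : z + c.1 < b
    · refine ⟨b * (x / b) + z, by omega, by omega, ?_⟩
      intro i hi
      rw [fl_eq_lc, ← hbdef, Nat.add_assoc, loc _ (by omega)]
      refine ⟨by omega, by omega, Or.inr ⟨c, hc, ?_⟩⟩
      by_cases h5 : i < sp c
      · have h6 : (z + i) % sp c = i := by
          rw [Nat.add_mod, hz3, Nat.zero_add, Nat.mod_mod, Nat.mod_eq_of_lt h5]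
        omega
      · have := Nat.mod_lt (z + i) hs1
        omega
    · refine ⟨b * (x / b) + b, by omega, by omega, ?_⟩
      intro i hi
      have h6 : (b * (x / b) + b + i) % b = i := by
        have : b * (x / b) + b + i = b * (x / b + 1) + i := by ring
        rw [this, Nat.mul_add_mod]
        exact Nat.mod_eq_of_lt (by omega)
      rw [fl_eq_lc, ← hbdef, h6]
      exact ⟨by omega, by omega, Or.inl (by omega)⟩

/-- decoding -/
lemma decode (cons : List (ℕ × ℕ)) (hg : GoodC cons) (N l : ℕ) {w w' : List Ltr}
    (hw : w.length = l) (hw' : w'.length = l) (x x' : ℕ)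
    (hx : x + 2 * bl cons N l ≤ N * bl cons N l)
    (h : ∀ i < 2 * bl cons N l, fl cons N l w (x + i) = fl cons N l w' (x' + i)) :
    w = w' ∧ x = x' := by
  have hb := hd_lt_bl cons N l
  have hlt : x % bl cons N l < bl cons N l := Nat.mod_lt _ (by omega)
  have hcd := count_dat cons hg N l
  set b := bl cons N l with hbdef
  set t := b - x % b with ht
  have hb0 : 0 < b := by omega
  have hxt : x + t = b * (x / b + 1) := by
    have := Nat.div_add_mod x b
    have h2 : b * (x / b + 1) = b * (x / b) + b := by ring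
    omega
  have htb : t ≤ b := by omega
  -- the head is recognised in the second word
  have h1 : ∀ i < hd cons, fl cons N l w' (x' + t + i) = lc := by
    intro i hi
    have h2 := h (t + i) (by omega)
    rw [← Nat.add_assoc, ← Nat.add_assoc] at h2
    rw [← h2, fl_eq_lc, ← hbdef]
    have h3 : (x + t + i) % b = i := by
      rw [hxt, Nat.mul_add_mod]
      exact Nat.mod_eq_of_lt (by omega)
    rw [h3]
    exact ⟨by omega, by omega, Or.inl (by omega)⟩
  have h2 := run cons hg N l w' (x' + t) h1
  rw [← hbdef] at h2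
  obtain ⟨k', hk'⟩ := Nat.dvd_of_mod_eq_zero h2
  set k := x / b + 1 with hk
  have hkN : k < N := by
    have : b * k + b ≤ N * b := by omega
    have h3 : b * (k + 1) ≤ b * N := by rw [Nat.mul_add, Nat.mul_one, Nat.mul_comm b N]; exact this
    have := Nat.le_of_mul_le_mul_left h3 hb0
    omega
  have key : ∀ j < 8 * l + N, bit l w k j = bit l w' k' j := by
    intro j hj
    have hj' : j < Nat.count (dat cons) (b - 1) := by omega
    have hlt' := Nat.nth_lt_of_lt_count hj'
    have hcount : Nat.count (dat cons) (Nat.nth (dat cons) j) = j := by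
      apply Nat.count_nth
      intro hf
      refine lt_of_lt_of_le hj' ?_
      rw [Nat.count_eq_card_filter_range]
      apply Finset.card_le_card
      intro y hy
      simp only [Finset.mem_filter] at hy
      simpa using hy.2
    have hdat : dat cons (Nat.nth (dat cons) j) := by
      apply Nat.nth_mem
      intro hf
      refine lt_of_lt_of_le hj' ?_
      rw [Nat.count_eq_card_filter_range]
      apply Finset.card_le_card
      intro y hy
      simp only [Finset.mem_filter] at hy
      simpa using hy.2
    set y := Nat.nth (dat cons) j with hyy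
    have h3 := h (t + y) (by omega)
    rw [← Nat.add_assoc, ← Nat.add_assoc, hxt, hk'] at h3
    have h4 : (b * k + y) % b = y := by
      rw [Nat.mul_add_mod]
      exact Nat.mod_eq_of_lt (by omega)
    have h5 : (b * k' + y) % b = y := by
      rw [Nat.mul_add_mod]
      exact Nat.mod_eq_of_lt (by omega)
    have h6 : (b * k + y) / b = k := by
      rw [Nat.mul_add_div hb0, Nat.div_eq_of_lt (by omega), Nat.add_zero]
    have h7 : (b * k' + y) / b = k' := by
      rw [Nat.mul_add_div hb0, Nat.div_eq_of_lt (by omega), Nat.add_zero]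
    unfold fl at h3
    rw [← hbdef, h4, h5, h6, h7] at h3
    have h8 : ¬ (y = hd cons ∨ y + 1 = b) := by
      have := hdat.1
      omega
    rw [if_neg h8, if_neg h8, if_pos hdat, if_pos hdat, hcount] at h3
    by_cases h9 : bit l w k j = true
    · by_cases h10 : bit l w' k' j = true
      · rw [h9, h10]
      · rw [if_pos h9, if_neg h10] at h3
        exact absurd h3 (by decide)
    · by_cases h10 : bit l w' k' j = true
      · rw [if_neg h9, if_pos h10] at h3
        exact absurd h3 (by decide)
      · rw [Bool.not_eq_true] at h9 h10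
        rw [h9, h10]
  obtain ⟨h3, h4⟩ := bit_inj hw hw' hkN key
  refine ⟨h3, ?_⟩
  rw [← h4] at hk'
  omega

/-! ## lists -/

lemma infix_spec {f : ℕ → Ltr} {n : ℕ} {y : List Ltr} (h : y <:+: (List.range n).map f) :
    ∃ x, x + y.length ≤ n ∧ ∀ i (hi : i < y.length), y[i] = f (x + i) := by
  obtain ⟨s, t, h⟩ := h
  have hl := congrArg List.length h
  simp only [List.length_append, List.length_map, List.length_range] at hl
  refine ⟨s.length, by omega, ?_⟩
  intro i hi
  have h1 : ((List.range n).map f)[s.length + i]? = some (f (s.length + i)) := by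
    rw [List.getElem?_map, List.getElem?_range (by omega)]
    rfl
  rw [← h, List.append_assoc, List.getElem?_append_right (by omega), Nat.add_sub_cancel_left,
    List.getElem?_append_left hi, List.getElem?_eq_getElem hi] at h1
  exact Option.some.inj h1

lemma infix_of {f : ℕ → Ltr} {y : List Ltr} {x u p : ℕ} {c : Ltr}
    (hy : ∀ i (hi : i < y.length), y[i] = f (x + i)) (hu : x ≤ u) (hup : u + p ≤ x + y.length)
    (hf : ∀ i < p, f (u + i) = c) : List.replicate p c <:+: y := by
  have h1 : (y.drop (u - x)).take p = List.replicate p c := by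
    apply List.ext_getElem
    · rw [List.length_take, List.length_drop, List.length_replicate]
      omega
    · intro i h1 h2
      rw [List.length_replicate] at h2
      rw [List.getElem_take, List.getElem_drop, List.getElem_replicate, hy, ← hf i h2]
      congr 1
      omega
  rw [← h1]
  exact (List.take_prefix _ _).isInfix.trans (List.drop_suffix _ _).isInfix

/-- the code -/
def code (cons : List (ℕ × ℕ)) (N l : ℕ) (w : List Ltr) : List Ltr :=
  (List.range (N * bl cons N l)).map (fl cons N l w)

lemma code_get (cons : List (ℕ × ℕ)) (N l : ℕ) (w : List Ltr) (x m i : ℕ)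
    (hx : x + m ≤ N * bl cons N l) (hi : i < m) :
    (((code cons N l w).drop x).take m)[i]? = some (fl cons N l w (x + i)) := by
  unfold code
  rw [List.getElem?_take_of_lt hi, List.getElem?_drop, List.getElem?_map,
    List.getElem?_range (by omega)]
  rfl

theorem isCode (cons : List (ℕ × ℕ)) (hg : GoodC cons) (N l : ℕ) :
    IsCode cons (hd cons + 1) l (N * bl cons N l) (2 * bl cons N l) (code cons N l) := by
  have hb := hd_lt_bl cons N l
  refine ⟨?_, ?_, ?_, ?_, ?_, by omega, by omega⟩
  · intro w _ x hx
    unfold code at hx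
    rw [List.mem_map] at hx
    obtain ⟨i, -, rfl⟩ := hx
    unfold fl
    split_ifs <;> decide
  · intro w _
    unfold code
    rw [List.length_map, List.length_range]
  · intro w _ c hc y hy _ hlen
    obtain ⟨x, hx1, hx2⟩ := infix_spec hy
    obtain ⟨u, hu1, hu2, hu3⟩ := sepl cons hg N l w c hc x
    exact infix_of hx2 hu1 (by omega) hu3
  · intro w w' hw hw' x x' hx hx' h
    apply decode cons hg N l hw hw' x x' hx
    intro i hi
    have h1 := code_get cons N l w x _ i hx hi
    have h2 := code_get cons N l w' x' _ i hx' hi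
    rw [h, h2] at h1
    exact (Option.some.inj h1).symm
  · intro w _ h
    obtain ⟨x, hx1, hx2⟩ := infix_spec h
    have h1 : ∀ i < hd cons + 1, fl cons N l w (x + i) = lc := by
      intro i hi
      have h2 := hx2 i (by rw [List.length_replicate]; exact hi)
      rw [List.getElem_replicate] at h2
      exact h2.symm
    have h2 := run cons hg N l w x (fun i hi => h1 i (by omega))
    have h3 := run cons hg N l w (x + 1) (fun i hi => by
      have := h1 (1 + i) (by omega)
      rwa [← Nat.add_assoc] at this)
    rw [Nat.add_mod, h2, Nat.zero_add, Nat.mod_mod, Nat.mod_eq_of_lt (by omega)] at h3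
    omega

theorem stmtCodes : StmtCodes := by
  intro N₀
  set N := 2 * N₀ + 1 with hN
  refine ⟨17 * N, GoodC, ⟨by simp, by simp [sig]⟩, ?_⟩
  intro cons hg
  have hσ : 0 < 1 / 2 - sig cons := by linarith [hg.2]
  obtain ⟨l₁, hl₁⟩ := exists_nat_gt (((hd cons + 1 : ℕ) : ℚ) / (1 / 2 - sig cons))
  refine ⟨hd cons + 1, max (l₁ + 3 * (hd cons + 1) + 1) (hd cons + 2 + 2 * N + 4 * tot cons), ?_⟩
  intro l hl
  have hl1 : l₁ + 3 * (hd cons + 1) + 1 ≤ l := (le_max_left _ _).trans hl
  have hl2 : hd cons + 2 + 2 * N + 4 * tot cons ≤ l := (le_max_right _ _).trans hl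
  have hbl : bl cons N l ≤ 17 * l := by unfold bl; omega
  have hbl2 : 16 * l ≤ bl cons N l := by unfold bl; omega
  refine ⟨N * bl cons N l, 2 * bl cons N l, code cons N l, isCode cons hg N l, ?_, ?_, ?_, ?_⟩
  · rw [hN]
    nlinarith
  · rw [hN]
    nlinarith
  · calc N * bl cons N l ≤ N * (17 * l) := Nat.mul_le_mul_left _ hbl
      _ = 17 * N * l := by ring
  · refine ⟨?_, ?_⟩
    · intro c hc
      rcases List.mem_cons.1 hc with rfl | h
      · show 3 * (hd cons + 1) < 2 * bl cons N l
        omega
      · exact hg.1 c h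
    · have h1 : sig ((hd cons + 1, 2 * bl cons N l) :: cons) =
          ((hd cons + 1 : ℕ) : ℚ) / (sp (hd cons + 1, 2 * bl cons N l) : ℚ) + sig cons := by
        simp [sig]
      have h2 : l₁ ≤ sp (hd cons + 1, 2 * bl cons N l) := by
        show l₁ ≤ 2 * bl cons N l - 3 * (hd cons + 1)
        omega
      have h3 : (l₁ : ℚ) ≤ (sp (hd cons + 1, 2 * bl cons N l) : ℚ) := by exact_mod_cast h2
      have h4 : (0 : ℚ) < ((hd cons + 1 : ℕ) : ℚ) / (1 / 2 - sig cons) := by positivity
      have h5 : ((hd cons + 1 : ℕ) : ℚ) / (sp (hd cons + 1, 2 * bl cons N l) : ℚ) <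
          1 / 2 - sig cons := by
        rw [div_lt_iff₀ (by linarith)]
        rw [div_lt_iff₀ hσ] at hl₁
        nlinarith
      rw [h1]
      linarith

end Pool.Agent.Helper61.MLCodes

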