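import Mathlib
import Pool.Agent.Helper93.ML.Window

/-!
# Module M5_Trans: words which are clean for the next level have small projections
-/

namespace Pool.Agent.Helper61.MLTrans

open Pool.Agent.Helper93.ML

theorem gd_invw {G : Type} [Group G] {M : Mark G} {w : List Ltr} (h : M.Gd w) :
    M.Gd (invw w) := by
  unfold Mark.Gd at *
  rw [M.ev_invw, M.len_inv, invw_length, h]

theorem str_pth {G : Type} [Group G] {M : Mark G} {P : G} {z : List Ltr} (h : M.Gd z) :
    Str M.d (M.pth P z) z.length 0 := by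
  intro a b c hab hbc hc
  rw [M.pth_geod h hab (by omega), M.pth_geod h hbc hc, M.pth_geod h (hab.trans hbc) hc]
  omega

/-- The two vertices of a path read by `z` are joined by an infix of `z` or of `invw z`. -/
theorem join {G : Type} [Group G] {M : Mark G} (P : G) (z : List Ltr) (ja jb : ℕ) :
    ∃ z', M.pth P z ja * M.ev z' = M.pth P z jb ∧ (z' <:+: z ∨ z' <:+: invw z) := by
  rcases le_total ja jb with h | h
  · refine ⟨(z.drop ja).take (jb - ja), ?_, Or.inl ?_⟩
    · have h1 := M.ev_take_add z ja (jb - ja)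
      rw [show ja + (jb - ja) = jb by omega] at h1
      unfold Mark.pth
      rw [h1, mul_assoc]
    · exact (List.take_prefix _ _).isInfix.trans (List.drop_suffix _ _).isInfix
  · refine ⟨invw ((z.drop jb).take (ja - jb)), ?_, Or.inr (invw_sub ?_)⟩
    · have h1 := M.ev_take_add z jb (ja - jb)
      rw [show jb + (ja - jb) = ja by omega] at h1
      unfold Mark.pth
      rw [h1, M.ev_invw]
      group
    · exact (List.take_prefix _ _).isInfix.trans (List.drop_suffix _ _).isInfix

theorem stmtM5Trans (hMatch : StmtM5Match) : StmtM5Trans := by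
  intro G _ M cons δ hInv κ
  obtain ⟨Λ, hΛ⟩ := hMatch G M cons δ hInv (22 * κ)
  refine ⟨Λ + 3, ?_⟩
  intro V L hR hκ hl hθl hθm z hz v P
  by_contra hcon
  push Not at hcon
  have h1 := L.hκ
  have h2 := L.hθ
  have h3 := L.hτ
  have hτ : L.τ = V.l + V.n + 2 := by
    rw [← L.lenR v.1, hR, V.rel_length v.1.2]
  have hzc := clean_tail hz
  have hgd : M.Gd z := hInv.geod z hzc
  -- the window
  obtain ⟨q, s, k, hk1, hk2, hk3, hk4⟩ := window_exists V.l V.n
    (min (L.pr v P) (L.pr v (P * M.ev z))) L.θ (by omega) (by omega)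
  set a : ℤ := q * ((V.l + V.n + 2 : ℕ) : ℤ) + (V.l + 1 : ℕ) + s with ha
  have hdv : L.dv v P (P * M.ev z) = (L.pr v P - L.pr v (P * M.ev z)).natAbs := rfl
  have hnear : ∀ x : ℤ, a ≤ x → x ≤ a + k →
      ∃ j ≤ z.length, M.d (L.ax v x) (M.pth P z j) ≤ 22 * κ := by
    intro x hx1 hx2
    have := L.near v (M.isPath_pth P z z.length) (str_pth hgd) (M.pth_zero P z)
      (M.pth_length P z) (by omega) (x := x) (by
        rcases le_total (L.pr v P) (L.pr v (P * M.ev z)) with h | h
        · left
          rw [min_eq_left h] at hk2 hk3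
          omega
        · right
          rw [min_eq_right h] at hk2 hk3
          omega)
    rw [hκ] at this
    simpa using this
  obtain ⟨ja, _, hda⟩ := hnear a le_rfl (by omega)
  obtain ⟨jb, _, hdb⟩ := hnear (a + k) (by omega) le_rfl
  have hax := V.ax_code L hR v q s k hk1
  rw [← ha] at hax
  rw [hax] at hdb
  set ζ := ((V.code v.1).drop s).take k with hζ
  have hcodelen := V.isCode.len v.1 (V.hK v.1 v.1.2).1
  have hζlen : ζ.length = k := by
    rw [hζ, List.length_take, List.length_drop]
    omega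
  have hζsub : ζ <:+: V.code v.1 :=
    (List.take_prefix _ _).isInfix.trans (List.drop_suffix _ _).isInfix
  have hζc : Clean cons ζ := clean_sub (V.code_clean v.1.2) hζsub
  obtain ⟨z', hz'1, hz'2⟩ := join (M := M) P z ja jb
  rw [← hz'1] at hdb
  have hz'gd : M.Gd z' := by
    rcases hz'2 with h | h
    · exact hgd.sub h
    · exact (gd_invw hgd).sub h
  have hz'sep : Sep ((V.p, V.m) :: cons) z' := by
    rcases hz'2 with h | h
    · exact sep_sub hz.2.1 h
    · exact sep_sub hz.2.2 h
  obtain ⟨j₀, hj1, hj2, -⟩ := hΛ ζ z' _ _ hζc hz'gd hda hdb (by omega)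
  set ξ := (ζ.drop Λ).take (ζ.length - 2 * Λ) with hξ
  have hξlen : ξ.length = k - 2 * Λ := by
    rw [hξ, List.length_take, List.length_drop]
    omega
  have hξ1 : ξ <:+: V.code v.1 :=
    ((List.take_prefix _ _).isInfix.trans (List.drop_suffix _ _).isInfix).trans hζsub
  have hξ2 : ξ <:+: z' := by
    rw [hj2]
    exact (List.take_prefix _ _).isInfix.trans (List.drop_suffix _ _).isInfix
  have hpos : Pos ξ := pos_sub (V.isCode.pos v.1 (V.hK v.1 v.1.2).1) hξ1
  have hsep := hz'sep (V.p, V.m) (List.mem_cons_self) ξ hξ2 hpos (by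
    rw [hξlen]
    show V.m ≤ k - 2 * Λ
    omega)
  exact V.isCode.nop v.1 (V.hK v.1 v.1.2).1 (hsep.trans hξ1)

end Pool.Agent.Helper61.MLTrans
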